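import Mathlib
import Pool.Agent.Helper95.FL.Stmts2

set_option autoImplicit false

/-!
# XT-C1, XT-C2: chambers are determined by their vertices, chambers on an edge
-/

namespace Pool.Agent.Helper39.FL

open Pool.Agent.Helper95.FL
open Pool.Agent.Helper22.ETModel
open scoped Classical

/-- equality of two vertices of the same type -/
theorem vert_eq_iff {G : Type} [Group G] (H : Fin 3 → Subgroup G) (t : Fin 3) (x y : G) :
    (grpCx H).vert t x = (grpCx H).vert t y ↔ x⁻¹ * y ∈ H t := by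
  rw [← QuotientGroup.eq]
  constructor
  · intro h
    exact sigma_mk_injective (β := fun t : Fin 3 => G ⧸ H t) h
  · intro h
    show (⟨t, (x : G ⧸ H t)⟩ : Σ t : Fin 3, G ⧸ H t) = ⟨t, (y : G ⧸ H t)⟩
    rw [h]

/-- equality of two edges of the same type -/
theorem edge_eq_iff {G : Type} [Group G] {U H : Fin 3 → Subgroup G} {m : ℕ} (hG : Geo U H m)
    (s : Fin 3) (x y : G) :
    (grpCx H).edge s y = (grpCx H).edge s x ↔ x⁻¹ * y ∈ U s := by
  have h12 : ∀ s : Fin 3, s + 1 ≠ s + 2 ∧ s + 1 ≠ s ∧ s + 2 ≠ s := by decide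
  obtain ⟨h1, h2, h3⟩ := h12 s
  rw [← hG.inter (s + 1) (s + 2) s h1 h2 h3, Subgroup.mem_inf, eq_comm]
  unfold Cx.edge
  rw [Prod.mk.injEq, vert_eq_iff, vert_eq_iff]

theorem stInj : StInj := by
  intro G _ U H m hG hm x y hxy
  have hz : ∀ t, x⁻¹ * y ∈ H t := fun t => (vert_eq_iff H t x y).1 (hxy t)
  by_contra hne
  have hz1 : x⁻¹ * y ≠ 1 := by
    intro h
    exact hne (inv_mul_eq_one.1 h)
  have hU1 : x⁻¹ * y ∈ U 1 := by
    rw [← hG.inter 0 2 1 (by decide) (by decide) (by decide), Subgroup.mem_inf]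
    exact ⟨hz 0, hz 2⟩
  have hU2 : x⁻¹ * y ∈ U 2 := by
    rw [← hG.inter 0 1 2 (by decide) (by decide) (by decide), Subgroup.mem_inf]
    exact ⟨hz 0, hz 1⟩
  refine hG.girth [(1, x⁻¹ * y), (2, (x⁻¹ * y)⁻¹)] ⟨?_, ?_⟩ (by simp) (by simpa using hm) ?_
  · intro p hp
    rcases List.mem_cons.1 hp with rfl | hp
    · exact ⟨hU1, hz1⟩
    · rw [List.mem_singleton] at hp
      subst hp
      exact ⟨(U 2).inv_mem hU2, inv_ne_one.2 hz1⟩
  · simp
  · simp [prodW]

theorem stStar : StStar := by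
  intro G _ _ U H m hG s x
  have h1 : (Finset.univ.filter fun y => (grpCx H).edge s y = (grpCx H).edge s x).card
      = Nat.card {y : G // (grpCx H).edge s y = (grpCx H).edge s x} := by
    rw [Nat.card_eq_fintype_card, Fintype.card_subtype]
  rw [h1]
  refine Nat.card_congr ⟨fun y => ⟨x⁻¹ * y.1, (edge_eq_iff hG s x y.1).1 y.2⟩,
    fun u => ⟨x * u.1, (edge_eq_iff hG s x (x * u.1)).2 (by simp)⟩, ?_, ?_⟩
  · intro y
    apply Subtype.ext
    simp
  · intro u
    apply Subtype.ext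
    simp

end Pool.Agent.Helper39.FL
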